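import Mathlib
import Pool.Graph.R_seed8.W671.WU11

/-!
# Closed three-manifolds with a volume preserving geodesible flow

The definitions for manifolds, one-forms, contact forms, Reeb fields and periodic orbits are those of
`Pool.Agent.H826R2.WStmt`; `IsFlow` is in `Pool.Agent.W671.RStmt`.
-/

open scoped Topology ContDiff Manifold
open Set Bundle Pool.Agent.H826R2.WStmt Pool.Agent.W671.RStmt

noncomputable section

namespace Pool.Agent.H904.W3

universe w

/-- The model space of three-manifolds. -/
abbrev E3 : Type := EuclideanSpace ℝ (Fin 3)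

/-- The space `N` is the total space of a (locally trivial) bundle over the circle whose fibres are
tori `S¹ × S¹`. -/
def IsTorusBundle (N : Type*) [TopologicalSpace N] : Prop :=
  ∃ p : N → Circle, ∀ z : Circle, ∃ e : Trivialization (Circle × Circle) p, z ∈ e.baseSet

section

variable {E : Type*} [NormedAddCommGroup E] [NormedSpace ℝ E]
  {M : Type*} [TopologicalSpace M] [ChartedSpace E M]

/-- The vector field `X` is smooth. -/
def SmoothField [IsManifold 𝓘(ℝ, E) ∞ M] (X : M → E) : Prop :=
  ContMDiff 𝓘(ℝ, E) 𝓘(ℝ, E).tangent ∞
    (fun x => (⟨x, (X x : TangentSpace 𝓘(ℝ, E) x)⟩ : TangentBundle 𝓘(ℝ, E) M))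

end

section

variable {N : Type*} [TopologicalSpace N] [ChartedSpace E3 N]

/-- A volume form on the three-manifold `N`: a smooth nowhere vanishing three-form. It is given by the
number `μ y`, its value at the point `y` on the standard basis of the tangent space `E3` (Mathlib
identifies the tangent space with the model space by the preferred chart at `y`); its coefficient in
the chart at `x` has to be smooth. A manifold with a volume form is oriented. -/
structure IsVolumeForm (μ : N → ℝ) : Prop where
  ne_zero : ∀ y, μ y ≠ 0
  smooth : ∀ x : N, ContDiffOn ℝ ∞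
    (fun p : E3 => μ ((extChartAt 𝓘(ℝ, E3) x).symm p) *
      (D (E := E3) (E' := E3) (extChartAt 𝓘(ℝ, E3) x).symm p).det)
    (extChartAt 𝓘(ℝ, E3) x).target

/-- The flow `Ψ` preserves the volume form `μ` (up to the sign, and hence, by continuity, exactly). -/
def Preserves (Ψ : N → ℝ → N) (μ : N → ℝ) : Prop :=
  ∀ (t : ℝ) (y : N), |μ (Ψ y t) * (D (E := E3) (E' := E3) (fun z => Ψ z t) y).det| = |μ y|

end

/-- `R` is the Reeb field of a stable Hamiltonian structure on the three-manifold `N`: `lam` is a
smooth one-form with `lam(R) = 1` and `d lam(R, ·) = 0`, and the flow `Ψ` of the smooth field `R`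
preserves the volume form `μ`. (So `ω = i_R μ` is a closed two-form with `ω(R, ·) = 0` and
`lam ∧ ω = μ`, and the kernel `ℝ R` of `ω` is contained in the kernel of `d lam`.) -/
structure IsStableReeb {N : Type*} [TopologicalSpace N] [ChartedSpace E3 N]
    [IsManifold 𝓘(ℝ, E3) ∞ N] (lam : N → Cov E3) (R : N → E3) (Ψ : N → ℝ → N) (μ : N → ℝ) :
    Prop where
  smooth : SmoothForm lam
  field : SmoothField R
  reeb : IsReeb lam R
  flow : IsFlow R Ψ
  volume : IsVolumeForm μ
  preserves : Preserves Ψ μ

/-- **The theorem of Hutchings and Taubes** (The Weinstein conjecture for stable Hamiltonian structures,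
Geom. Topol. 13 (2009)): the Reeb field of a stable Hamiltonian structure on a closed connected
(oriented) three-manifold which is not a torus bundle over the circle has a periodic orbit. -/
def HutchingsTaubes : Prop :=
  ∀ (N : Type w) [TopologicalSpace N] [ChartedSpace E3 N] [IsManifold 𝓘(ℝ, E3) ∞ N]
    [T2Space N] [CompactSpace N] [ConnectedSpace N]
    (lam : N → Cov E3) (R : N → E3) (Ψ : N → ℝ → N) (μ : N → ℝ),
    IsStableReeb lam R Ψ μ → ¬ IsTorusBundle N → ∃ (c : ℝ → N) (T : ℝ), IsPeriodicOrbit R c T

/-- **The theorem of Taubes** (the Weinstein conjecture in dimension three): the Reeb field of a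
contact form on a closed three-manifold has a periodic orbit. -/
def Taubes : Prop :=
  ∀ (N : Type w) [TopologicalSpace N] [ChartedSpace E3 N] [IsManifold 𝓘(ℝ, E3) ∞ N]
    [T2Space N] [CompactSpace N] [ConnectedSpace N]
    (lam : N → Cov E3) (R : N → E3),
    IsContact lam → IsReeb lam R → ∃ (c : ℝ → N) (T : ℝ), IsPeriodicOrbit R c T

/-- The three-manifold `N` is immersed in `M` by `j`, and the field `R` of `M` is tangent to it; `RN`
is the induced field of `N`. -/
structure IsTangent {E : Type*} [NormedAddCommGroup E] [NormedSpace ℝ E]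
    {M : Type*} [TopologicalSpace M] [ChartedSpace E M] {N : Type*} [TopologicalSpace N]
    [ChartedSpace E3 N] (R : M → E) (j : N → M) (RN : N → E3) : Prop where
  smooth : ContMDiff 𝓘(ℝ, E3) 𝓘(ℝ, E) ∞ j
  immersion : ∀ y, Function.Injective (D (E := E3) (E' := E) j y)
  tangent : ∀ y, D (E := E3) (E' := E) j y (RN y) = R (j y)

end Pool.Agent.H904.W3
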