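import Mathlib

/-!
# Gram determinants of bilinear forms
-/

set_option linter.unusedSectionVars false

noncomputable section

namespace Pool.Agent.H904.W3

open Matrix

variable {V : Type*} [NormedAddCommGroup V] [NormedSpace ℝ V]
  {ι κ : Type*} [Fintype ι] [DecidableEq ι] [Fintype κ] [DecidableEq κ]

/-- The matrix of the bilinear form `B` on the vectors `v`. -/
def gram (B : V →L[ℝ] V →L[ℝ] ℝ) (v : ι → V) : Matrix ι ι ℝ := Matrix.of fun i j => B (v i) (v j)

lemma gram_apply (B : V →L[ℝ] V →L[ℝ] ℝ) (v : ι → V) (i j : ι) : gram B v i j = B (v i) (v j) := rfl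

lemma gram_comb (B : V →L[ℝ] V →L[ℝ] ℝ) (v : ι → V) (P : Matrix κ ι ℝ) :
    gram B (fun i => ∑ j, P i j • v j) = P * gram B v * Pᵀ := by
  ext a b
  rw [gram_apply, Matrix.mul_apply]
  simp only [map_sum, map_smul, ContinuousLinearMap.coe_sum', Finset.sum_apply, smul_eq_mul,
    ContinuousLinearMap.coe_smul', Pi.smul_apply, Matrix.mul_apply, gram_apply, Matrix.transpose_apply]
  refine Finset.sum_congr rfl fun j _ => ?_
  rw [Finset.sum_mul, Finset.mul_sum]
  exact Finset.sum_congr rfl fun i _ => by ring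

lemma det_gram_comb (B : V →L[ℝ] V →L[ℝ] ℝ) (v : ι → V) (P : Matrix ι ι ℝ) :
    (gram B (fun i => ∑ j, P i j • v j)).det = P.det ^ 2 * (gram B v).det := by
  rw [gram_comb, Matrix.det_mul, Matrix.det_mul, Matrix.det_transpose]
  ring

lemma linearIndependent_of_det {B : V →L[ℝ] V →L[ℝ] ℝ} {v : ι → V} (h : (gram B v).det ≠ 0) :
    LinearIndependent ℝ v := by
  rw [Fintype.linearIndependent_iff]
  intro c hc i
  by_contra hi
  apply h
  rw [← Matrix.exists_vecMul_eq_zero_iff]
  refine ⟨c, fun h0 => hi (congrFun h0 i), ?_⟩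
  ext j
  have h1 := congrArg (fun x => B x (v j)) hc
  simp only [map_sum, map_smul, ContinuousLinearMap.coe_sum', Finset.sum_apply, smul_eq_mul,
    ContinuousLinearMap.coe_smul', Pi.smul_apply, map_zero, ContinuousLinearMap.zero_apply] at h1
  rw [Matrix.vecMul_apply_eq_sum]
  simpa [gram_apply] using h1

/-- A form without left kernel in the span has a nonvanishing determinant. -/
lemma det_ne_zero_of {B : V →L[ℝ] V →L[ℝ] ℝ} {v : ι → V} (hv : LinearIndependent ℝ v)
    (h : ∀ u ∈ Submodule.span ℝ (Set.range v), (∀ j, B u (v j) = 0) → u = 0) :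
    (gram B v).det ≠ 0 := by
  intro h0
  rw [← Matrix.exists_vecMul_eq_zero_iff] at h0
  obtain ⟨c, hc, hc0⟩ := h0
  apply hc
  have h1 : ∑ i, c i • v i = 0 := by
    apply h
    · exact Submodule.sum_mem _ fun i _ =>
        Submodule.smul_mem _ _ (Submodule.subset_span (Set.mem_range_self i))
    · intro j
      have h2 := congrFun hc0 j
      rw [Matrix.vecMul_apply_eq_sum] at h2
      simpa [gram_apply] using h2
  ext i
  exact Fintype.linearIndependent_iff.1 hv c h1 i

/-- Change of the first part of the vectors. -/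
lemma det_gram_sum_left (B : V →L[ℝ] V →L[ℝ] ℝ) (J : ι → V) (τ : κ → V) (Q : Matrix ι ι ℝ) :
    (gram B (Sum.elim (fun i => ∑ j, Q i j • J j) τ)).det =
      Q.det ^ 2 * (gram B (Sum.elim J τ)).det := by
  have h := det_gram_comb B (Sum.elim J τ) (Matrix.fromBlocks Q 0 0 1)
  rw [Matrix.det_fromBlocks_zero₂₁, Matrix.det_one, mul_one] at h
  rw [← h]
  congr 2
  ext1 i
  rcases i with i | a
  · simp [Fintype.sum_sum_type]
  · simp [Fintype.sum_sum_type, Matrix.one_apply]

/-- The quotient of the two determinants does not depend on the complement. -/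
lemma ratio_eq {B β : V →L[ℝ] V →L[ℝ] ℝ} {J : ι → V} {τ τ' : κ → V}
    (hfin : Module.finrank ℝ V = Fintype.card ι + Fintype.card κ) [FiniteDimensional ℝ V]
    (hv : (gram B (Sum.elim J τ)).det ≠ 0)
    (hl : ∀ i u, β (J i) u = 0) (hr : ∀ i u, β u (J i) = 0) :
    (gram B (Sum.elim J τ')).det * (gram β τ).det =
      (gram B (Sum.elim J τ)).det * (gram β τ').det := by
  have hli := linearIndependent_of_det hv
  have hcard : Fintype.card (ι ⊕ κ) = Module.finrank ℝ V := by rw [Fintype.card_sum, hfin]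
  have hspan : Submodule.span ℝ (Set.range (Sum.elim J τ)) = ⊤ := by
    cases isEmpty_or_nonempty (ι ⊕ κ) with
    | inl h =>
      have h0 : Module.finrank ℝ V = 0 := by rw [← hcard, Fintype.card_eq_zero]
      have := Module.finrank_zero_iff.1 h0
      exact Subsingleton.elim _ _
    | inr h => exact hli.span_eq_top_of_card_eq_finrank hcard
  have hexp : ∀ a : κ, ∃ c : ι ⊕ κ → ℝ, ∑ i, c i • Sum.elim J τ i = τ' a := by
    intro a
    have h1 : τ' a ∈ Submodule.span ℝ (Set.range (Sum.elim J τ)) := by rw [hspan]; trivial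
    exact (Submodule.mem_span_range_iff_exists_fun ℝ).1 h1
  choose c hc using hexp
  let C : Matrix κ ι ℝ := Matrix.of fun a i => c a (Sum.inl i)
  let A : Matrix κ κ ℝ := Matrix.of fun a b => c a (Sum.inr b)
  have hτ' : ∀ a, τ' a = (∑ i, C a i • J i) + ∑ b, A a b • τ b := by
    intro a
    rw [← hc a, Fintype.sum_sum_type]
    rfl
  have h1 : (gram B (Sum.elim J τ')).det = A.det ^ 2 * (gram B (Sum.elim J τ)).det := by
    have h := det_gram_comb B (Sum.elim J τ) (Matrix.fromBlocks 1 0 C A)
    rw [Matrix.det_fromBlocks_zero₁₂, Matrix.det_one, one_mul] at h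
    rw [← h]
    congr 2
    ext1 i
    rcases i with i | a
    · simp [Fintype.sum_sum_type, Matrix.one_apply]
    · simp [Fintype.sum_sum_type, hτ' a]
  have h2 : gram β τ' = gram β (fun a => ∑ b, A a b • τ b) := by
    ext a b
    rw [gram_apply, gram_apply, hτ' a, hτ' b]
    simp only [map_add, map_sum, map_smul, ContinuousLinearMap.add_apply,
      ContinuousLinearMap.coe_sum', Finset.sum_apply, ContinuousLinearMap.coe_smul', Pi.smul_apply,
      hl, hr, smul_zero, Finset.sum_const_zero, zero_add, smul_eq_mul, mul_zero, add_zero]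
  rw [h1, h2, det_gram_comb]
  ring

end Pool.Agent.H904.W3
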