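import Mathlib
import Pool.Graph.R_pool_sql_team_seeded_64922ed1.X167.W.Com
import Pool.Agent.H904.W3.Defs
import Pool.Agent.H904.W3.Lin

/-!
# Immersed three-manifolds tangent to the Reeb field: the flow, the one-form
-/

open scoped Topology ContDiff Manifold
open Set Filter Bundle Pool.Agent.Helper186 Pool.Agent.H826R2.Wein Pool.Agent.W671.WU
  Pool.Agent.X167.W

noncomputable section

namespace Pool.Agent.H904.W3

set_option linter.unusedSectionVars false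

universe u w

variable {E : Type u} [NormedAddCommGroup E] [NormedSpace ℝ E] [FiniteDimensional ℝ E]
  {M : Type*} [TopologicalSpace M] [ChartedSpace E M] [IsManifold 𝓘(ℝ, E) ∞ M]
  {a : (x : M) → TangentSpace 𝓘(ℝ, E) x →L[ℝ] ℝ} {R : (x : M) → TangentSpace 𝓘(ℝ, E) x}
  {N : Type w} [TopologicalSpace N] [ChartedSpace E3 N] [IsManifold 𝓘(ℝ, E3) ∞ N]

variable (E) in
/-- the derivative of `j` as a linear map of the model spaces -/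
def dJ (j : N → M) (y : N) : E3 →L[ℝ] E := mfderiv 𝓘(ℝ, E3) 𝓘(ℝ, E) j y

/-- the derivative of a self map of `N` -/
def dN (g : N → N) (y : N) : E3 →L[ℝ] E3 := mfderiv 𝓘(ℝ, E3) 𝓘(ℝ, E3) g y

/-- An immersion of `N` which is tangent to the field `R`. -/
structure Tan (R : (x : M) → TangentSpace 𝓘(ℝ, E) x) (j : N → M) : Prop where
  smooth : ContMDiff 𝓘(ℝ, E3) 𝓘(ℝ, E) ∞ j
  inj : ∀ y, Function.Injective (dJ E j y)
  tan : ∀ y, ∃ u : E3, dJ E j y u = rE R (j y)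

namespace Tan

variable {j : N → M} (h : Tan R j)

include h in
lemma mdiff (y : N) : MDifferentiableAt 𝓘(ℝ, E3) 𝓘(ℝ, E) j y :=
  h.smooth.mdifferentiableAt (by simp)

/-- the field on `N` -/
def RN (y : N) : E3 := Classical.choose (h.tan y)

lemma RN_spec (y : N) : dJ E j y (h.RN y) = rE R (j y) := Classical.choose_spec (h.tan y)

/-- smooth sections are mapped to smooth sections -/
lemma push_section {y₀ : N} (hj : ContMDiff 𝓘(ℝ, E3) 𝓘(ℝ, E) ∞ j)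
    {u : (y : N) → TangentSpace 𝓘(ℝ, E3) y}
    (hu : ContMDiffAt 𝓘(ℝ, E3) 𝓘(ℝ, E3).tangent ∞
      (fun y => (⟨y, u y⟩ : TangentBundle 𝓘(ℝ, E3) N)) y₀) :
    ContMDiffAt 𝓘(ℝ, E3) 𝓘(ℝ, E).tangent ∞
      (fun y => (⟨j y, (dJ E j y (u y) : E)⟩ : TangentBundle 𝓘(ℝ, E) M)) y₀ := by
  have h1 : ContMDiff 𝓘(ℝ, E3).tangent 𝓘(ℝ, E).tangent ∞ (tangentMap 𝓘(ℝ, E3) 𝓘(ℝ, E) j) :=
    hj.contMDiff_tangentMap (by simp)
  exact (h1 _).comp y₀ hu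

/-- the induced metric -/
def BN {n : ℕ} (ι : Imm (E := E) M n) (j : N → M) (y : N) :
    TangentSpace 𝓘(ℝ, E3) y →L[ℝ] TangentSpace 𝓘(ℝ, E3) y →L[ℝ] ℝ :=
  (ContinuousLinearMap.bilinearComp (show E →L[ℝ] E →L[ℝ] ℝ from ι.B (j y))
    (dJ E j y) (dJ E j y) : E3 →L[ℝ] E3 →L[ℝ] ℝ)

/-- the metric of an immersion, along a map -/
lemma smooth_metric {n : ℕ} (ι : Imm (E := E) M n) {y₀ : N}
    {u v : (y : N) → TangentSpace 𝓘(ℝ, E) (j y)}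
    (hu : ContMDiffAt 𝓘(ℝ, E3) 𝓘(ℝ, E).tangent ∞
      (fun y => (⟨j y, u y⟩ : TangentBundle 𝓘(ℝ, E) M)) y₀)
    (hv : ContMDiffAt 𝓘(ℝ, E3) 𝓘(ℝ, E).tangent ∞
      (fun y => (⟨j y, v y⟩ : TangentBundle 𝓘(ℝ, E) M)) y₀) :
    ContMDiffAt 𝓘(ℝ, E3) 𝓘(ℝ, ℝ) ∞ (fun y => ι.B (j y) (u y) (v y)) y₀ := by
  have h : ∀ w : (y : N) → TangentSpace 𝓘(ℝ, E) (j y),
      ContMDiffAt 𝓘(ℝ, E3) 𝓘(ℝ, E).tangent ∞
        (fun y => (⟨j y, w y⟩ : TangentBundle 𝓘(ℝ, E) M)) y₀ →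
      ContMDiffAt 𝓘(ℝ, E3) 𝓘(ℝ, EuclideanSpace ℝ (Fin n)) ∞ (fun y => ι.D (j y) (w y)) y₀ := by
    intro w hw
    have h1 : ContMDiff 𝓘(ℝ, E).tangent 𝓘(ℝ, EuclideanSpace ℝ (Fin n)).tangent ∞
        (tangentMap 𝓘(ℝ, E) 𝓘(ℝ, EuclideanSpace ℝ (Fin n)) ι.F) :=
      ι.smooth.contMDiff_tangentMap (by simp)
    have h2 := (h1 _).comp y₀ hw
    have h3 := contMDiff_snd_tangentBundle_modelSpace (EuclideanSpace ℝ (Fin n))
      𝓘(ℝ, EuclideanSpace ℝ (Fin n)) (n := ∞)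
    exact (h3 _).comp y₀ h2
  have h1 := h u hu
  have h2 := h v hv
  have h3 : ContDiff ℝ ∞ (fun p : EuclideanSpace ℝ (Fin n) × EuclideanSpace ℝ (Fin n) =>
      inner ℝ p.1 p.2) := contDiff_inner
  exact h3.contMDiff.contMDiffAt.comp y₀ (h1.prodMk_space h2)

/-- the Reeb field along `j` is smooth -/
lemma smooth_R (hR : ContMDiff 𝓘(ℝ, E) 𝓘(ℝ, E).tangent ∞
      (fun x => (⟨x, R x⟩ : TangentBundle 𝓘(ℝ, E) M)))
    (hj : ContMDiff 𝓘(ℝ, E3) 𝓘(ℝ, E) ∞ j) :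
    ContMDiff 𝓘(ℝ, E3) 𝓘(ℝ, E).tangent ∞
      (fun y => (⟨j y, R (j y)⟩ : TangentBundle 𝓘(ℝ, E) M)) := hR.comp hj

/-- the field on `N` is smooth -/
lemma smooth_RN [T2Space M] [CompactSpace M] (c : CD a R) :
    SmoothField (fun y => h.RN y) := by
  obtain ⟨n, e, he, -, hinj⟩ := exists_embedding_euclidean_of_compact (I := 𝓘(ℝ, E)) (M := M)
  let ι : Imm (E := E) M n := ⟨e, he, hinj⟩
  intro y₀
  refine contMDiffAt_of_pairing (J := 𝓘(ℝ, E3)) (f := fun y : N => y) (B := BN ι j) contMDiffAt_id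
    ?_ ?_ ?_
  · intro u v hu hv
    exact smooth_metric ι (push_section h.smooth hu) (push_section h.smooth hv)
  · intro u hu
    have key : ∀ w : TangentSpace 𝓘(ℝ, E) (j y₀), ι.B (j y₀) w w = 0 → w = 0 := by
      intro w hw
      rw [ι.B_apply, inner_self_eq_zero] at hw
      exact ι.inj (j y₀) (hw.trans (map_zero (ι.D (j y₀))).symm)
    have h2 : dJ E j y₀ u = 0 := key _ (hu u)
    exact h.inj y₀ (h2.trans (map_zero _).symm)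
  · intro v hv
    have h1 := smooth_metric ι (smooth_R (smooth_reeb c) h.smooth y₀) (push_section h.smooth hv)
    refine h1.congr_of_eventuallyEq (Filter.Eventually.of_forall fun y => ?_)
    show ι.B (j y) (dJ E j y (h.RN y)) (dJ E j y (v y)) = ι.B (j y) (R (j y)) (dJ E j y (v y))
    rw [h.RN_spec y]
    rfl

/-- integral curves on `N` are mapped to integral curves on `M` -/
lemma integral_push {γ : ℝ → N}
    (hγ : IsMIntegralCurve (I := 𝓘(ℝ, E3)) γ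
      (fun y => (h.RN y : TangentSpace 𝓘(ℝ, E3) y))) :
    IsMIntegralCurve (I := 𝓘(ℝ, E)) (fun t => j (γ t)) R := by
  intro t
  have h2 := HasMFDerivAt.comp t (g := j) (f := γ) (h.mdiff (γ t)).hasMFDerivAt (hγ t)
  refine h2.congr_mfderiv ?_
  refine ContinuousLinearMap.ext fun (r : ℝ) => ?_
  show dJ E j (γ t) (r • h.RN (γ t)) = r • rE R (j (γ t))
  rw [map_smul, h.RN_spec]

end Tan

/-- The flow on `N`. -/
structure NFlow (R : (x : M) → TangentSpace 𝓘(ℝ, E) x) {j : N → M} (h : Tan R j)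
    (Fl : M → ℝ → M) (Ψ : N → ℝ → N) : Prop where
  flow : W671.RStmt.IsFlow h.RN Ψ
  smooth : ∀ t, ContMDiff 𝓘(ℝ, E3) 𝓘(ℝ, E3) ∞ (fun y => Ψ y t)
  comm : ∀ y t, j (Ψ y t) = Fl (j y) t

lemma exists_flow [T2Space M] [CompactSpace M] [T2Space N] [CompactSpace N] (c : CD a R)
    {Fl : M → ℝ → M} (hF : RF a R Fl) {j : N → M} (h : Tan R j) :
    ∃ Ψ : N → ℝ → N, NFlow R h Fl Ψ := by
  have : IsManifold 𝓘(ℝ, E) 1 M := IsManifold.of_le (n := ∞) (by simp)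
  have : IsManifold 𝓘(ℝ, E3) 1 N := IsManifold.of_le (n := ∞) (by simp)
  have hs := h.smooth_RN c
  choose Ψ h0 hΨ using fun y : N => complete_of_compact hs isCompact_univ
    (fun y hy => absurd (mem_univ y) hy) y
  have hsm := contMDiff_flow hs h0 hΨ
  refine ⟨Ψ, ⟨h0, hΨ⟩, fun t => hsm.comp (contMDiff_id.prodMk contMDiff_const), fun y t => ?_⟩
  have h1 := h.integral_push (hΨ y)
  have h2 : (fun t => j (Ψ y t)) = Fl (j y) := by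
    refine isMIntegralCurve_Ioo_eq_of_contMDiff_boundaryless (t₀ := 0)
      ((smooth_reeb c).of_le (by simp)) h1 (hF.int _) ?_
    simp [hF.zero, h0]
  exact congrFun h2 t

/-- the derivatives commute -/
lemma NFlow.deriv_comm {Fl : M → ℝ → M} (hF : RF a R Fl) {j : N → M} {h : Tan R j}
    {Ψ : N → ℝ → N} (hΨ : NFlow R h Fl Ψ) (t : ℝ) (y : N) (u : E3) :
    dJ E j (Ψ y t) (dN (fun z => Ψ z t) y u) = dE E (fun x => Fl x t) (j y) (dJ E j y u) := by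
  have h1 : mfderiv 𝓘(ℝ, E3) 𝓘(ℝ, E) (j ∘ fun z => Ψ z t) y =
      (mfderiv 𝓘(ℝ, E3) 𝓘(ℝ, E) j (Ψ y t)).comp
        (mfderiv 𝓘(ℝ, E3) 𝓘(ℝ, E3) (fun z => Ψ z t) y) :=
    mfderiv_comp y (h.mdiff _) ((hΨ.smooth t).mdifferentiableAt (by simp))
  have h2 : mfderiv 𝓘(ℝ, E3) 𝓘(ℝ, E) ((fun x => Fl x t) ∘ j) y =
      (mfderiv 𝓘(ℝ, E) 𝓘(ℝ, E) (fun x => Fl x t) (j y)).comp
        (mfderiv 𝓘(ℝ, E3) 𝓘(ℝ, E) j y) :=
    mfderiv_comp y ((hF.smooth_t t).mdifferentiableAt (by simp)) (h.mdiff _)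
  have h3 : (j ∘ fun z => Ψ z t) = (fun x => Fl x t) ∘ j := funext fun z => hΨ.comm z t
  rw [h3] at h1
  exact DFunLike.congr_fun (h1.symm.trans h2) u

/-- the induced one-form -/
lemma induced_form (c : CD a R) {j : N → M} (h : Tan R j) :
    SmoothForm (pullForm 𝓘(ℝ, E) 𝓘(ℝ, E3) j a) ∧
    (∀ y, pullForm 𝓘(ℝ, E) 𝓘(ℝ, E3) j a y (h.RN y) = 1) ∧
    ∀ y (v : E3), extDer 𝓘(ℝ, E3) (pullForm 𝓘(ℝ, E) 𝓘(ℝ, E3) j a) y (h.RN y) v = 0 := by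
  refine ⟨smoothForm_pull h.smooth c.contact.smooth, fun y => ?_, fun y v => ?_⟩
  · have h1 : (mfderiv 𝓘(ℝ, E3) 𝓘(ℝ, E) j y (h.RN y) : E) = R (j y) := h.RN_spec y
    have h2 := c.reeb.unit (j y)
    have h3 : a (j y) (mfderiv 𝓘(ℝ, E3) 𝓘(ℝ, E) j y (h.RN y)) = a (j y) (R (j y)) :=
      congrArg (fun u : E => a (j y) u) h1
    exact h3.trans h2
  · have h0 := extDer_pull (J := 𝓘(ℝ, E3)) h.smooth c.contact.smooth y
      (h.RN y : TangentSpace 𝓘(ℝ, E3) y) (v : TangentSpace 𝓘(ℝ, E3) y)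
    have h1 : (mfderiv 𝓘(ℝ, E3) 𝓘(ℝ, E) j y (h.RN y) : E) = R (j y) := h.RN_spec y
    have h2 := c.reeb.kernel (j y) (mfderiv 𝓘(ℝ, E3) 𝓘(ℝ, E) j y v)
    have h3 : extDer 𝓘(ℝ, E) a (j y) (mfderiv 𝓘(ℝ, E3) 𝓘(ℝ, E) j y (h.RN y))
        (mfderiv 𝓘(ℝ, E3) 𝓘(ℝ, E) j y v) =
        extDer 𝓘(ℝ, E) a (j y) (R (j y)) (mfderiv 𝓘(ℝ, E3) 𝓘(ℝ, E) j y v) :=
      congrArg (fun u : E => extDer 𝓘(ℝ, E) a (j y) u (mfderiv 𝓘(ℝ, E3) 𝓘(ℝ, E) j y v)) h1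
    exact h0.trans (h3.trans h2)

end Pool.Agent.H904.W3
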