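import Mathlib
import Pool.Agent.H904.W3.Core

/-!
# The invariant volume on a three-manifold with an invariant normal form
-/

open scoped Topology ContDiff Manifold
open Set Filter Bundle Pool.Agent.Helper186 Pool.Agent.H826R2.Wein Pool.Agent.W671.WU
  Pool.Agent.X167.W

noncomputable section

namespace Pool.Agent.H904.W3

set_option linter.unusedSectionVars false

universe u w

variable {E : Type u} [NormedAddCommGroup E] [NormedSpace ℝ E] [FiniteDimensional ℝ E]
  {M : Type*} [TopologicalSpace M] [ChartedSpace E M] [IsManifold 𝓘(ℝ, E) ∞ M]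
  {a : (x : M) → TangentSpace 𝓘(ℝ, E) x →L[ℝ] ℝ} {R : (x : M) → TangentSpace 𝓘(ℝ, E) x}
  {N : Type w} [TopologicalSpace N] [ChartedSpace E3 N] [IsManifold 𝓘(ℝ, E3) ∞ N]

/-- the standard basis -/
def bs (i : Fin 3) : E3 := EuclideanSpace.basisFun (Fin 3) ℝ i

/-- the matrix of a linear map in the standard basis (transposed) -/
def mat (A : E3 →L[ℝ] E3) : Matrix (Fin 3) (Fin 3) ℝ :=
  (LinearMap.toMatrix (EuclideanSpace.basisFun (Fin 3) ℝ).toBasis
    (EuclideanSpace.basisFun (Fin 3) ℝ).toBasis (A : E3 →ₗ[ℝ] E3)).transpose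

lemma det_mat (A : E3 →L[ℝ] E3) : (mat A).det = A.det := by
  rw [mat, Matrix.det_transpose, LinearMap.det_toMatrix]

lemma apply_bs {V : Type*} [AddCommGroup V] [Module ℝ V] (A : E3 →L[ℝ] E3) (L : E3 →ₗ[ℝ] V) (i : Fin 3) :
    L (A (bs i)) = ∑ l, mat A i l • L (bs l) := by
  have h1 : A (bs i) = ∑ l, mat A i l • bs l := by
    have h2 := (EuclideanSpace.basisFun (Fin 3) ℝ).toBasis.sum_repr (A (bs i))
    rw [← h2]
    refine Finset.sum_congr rfl fun l _ => ?_
    simp [mat, LinearMap.toMatrix_apply, bs]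
  rw [h1, map_sum]
  simp

/-- the images of the standard basis -/
def Jv (L : E3 →L[ℝ] E) (i : Fin 3) : E := L (bs i)

lemma Jv_comp (L : E3 →L[ℝ] E) (A : E3 →L[ℝ] E3) :
    Jv (L.comp A) = fun i => ∑ l, mat A i l • Jv L l :=
  funext fun i => apply_bs A (L : E3 →ₗ[ℝ] E) i

lemma linearIndependent_Jv {L : E3 →L[ℝ] E} (hL : Function.Injective L) :
    LinearIndependent ℝ (Jv L) := by
  have h1 : LinearIndependent ℝ bs := by
    have h := (EuclideanSpace.basisFun (Fin 3) ℝ).toBasis.linearIndependent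
    rwa [OrthonormalBasis.coe_toBasis] at h
  exact h1.map' (L : E3 →ₗ[ℝ] E) (LinearMap.ker_eq_bot.2 hL)

/-- Existence of a complement on which `B` is nondegenerate together with `J`. -/
lemma exists_compl {k : ℕ} (hk : Module.finrank ℝ E = 3 + k) {L : E3 →L[ℝ] E}
    (hL : Function.Injective L) {B : E →L[ℝ] E →L[ℝ] ℝ} (hB : ∀ u, (∀ v, B u v = 0) → u = 0) :
    ∃ τ : Fin k → E, (gram B (Sum.elim (Jv L) τ)).det ≠ 0 := by
  have hli := linearIndependent_Jv hL
  obtain ⟨W, hW⟩ := Submodule.exists_isCompl (Submodule.span ℝ (range (Jv L)))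
  have h1 : Module.finrank ℝ (Submodule.span ℝ (range (Jv L))) = 3 := by
    rw [finrank_span_eq_card hli, Fintype.card_fin]
  have h2 : Module.finrank ℝ W = k := by
    have := Submodule.finrank_add_eq_of_isCompl hW
    omega
  let bW := Module.finBasisOfFinrankEq ℝ W h2
  let τ : Fin k → E := fun i => (bW i : E)
  have hτ : LinearIndependent ℝ τ := bW.linearIndependent.map' W.subtype W.ker_subtype
  have hτW : Submodule.span ℝ (range τ) ≤ W := by
    rw [Submodule.span_le]
    rintro _ ⟨i, rfl⟩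
    exact (bW i).2
  have hs : LinearIndependent ℝ (Sum.elim (Jv L) τ) :=
    hli.sum_type hτ (hW.disjoint.mono_right hτW)
  have hspan : Submodule.span ℝ (range (Sum.elim (Jv L) τ)) = ⊤ :=
    hs.span_eq_top_of_card_eq_finrank (by simp [hk])
  refine ⟨τ, det_ne_zero_of hs fun u _ hu => hB u fun v => ?_⟩
  have hv : v ∈ Submodule.span ℝ (range (Sum.elim (Jv L) τ)) := by rw [hspan]; trivial
  induction hv using Submodule.span_induction with
  | mem x hx => obtain ⟨j, rfl⟩ := hx; exact hu j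
  | zero => exact map_zero _
  | add x y _ _ hx hy => rw [map_add, hx, hy, add_zero]
  | smul r x _ hx => rw [map_smul, hx, smul_zero]

/-- The normal form is nondegenerate on every complement. -/
lemma det_nor_ne {k : ℕ} (hk : Module.finrank ℝ E = 3 + k) {L : E3 →L[ℝ] E}
    {B β : E →L[ℝ] E →L[ℝ] ℝ} {τ : Fin k → E} (hτ : (gram B (Sum.elim (Jv L) τ)).det ≠ 0)
    (hr : ∀ u v, β v (L u) = 0) (hker : ∀ u, (∀ v, β u v = 0) → ∃ w, L w = u) :
    (gram β τ).det ≠ 0 := by
  have hs := linearIndependent_of_det hτ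
  have hspan : Submodule.span ℝ (range (Sum.elim (Jv L) τ)) = ⊤ :=
    hs.span_eq_top_of_card_eq_finrank (by simp [hk])
  obtain ⟨-, h2, hdis⟩ := linearIndependent_sum.1 hs
  rw [Sum.elim_comp_inr] at h2 hdis
  rw [Sum.elim_comp_inl] at hdis
  refine det_ne_zero_of h2 fun u hu hu2 => ?_
  obtain ⟨w, hw⟩ := hker u fun v => by
    have hv : v ∈ Submodule.span ℝ (range (Sum.elim (Jv L) τ)) := by rw [hspan]; trivial
    induction hv using Submodule.span_induction with
    | mem x hx =>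
      obtain ⟨j, rfl⟩ := hx
      rcases j with j | j
      · exact hr _ _
      · exact hu2 j
    | zero => exact map_zero _
    | add x y _ _ hx hy => rw [map_add, hx, hy, add_zero]
    | smul r x _ hx => rw [map_smul, hx, smul_zero]
  have h3 : u ∈ Submodule.span ℝ (range (Jv L)) := by
    rw [← hw]
    have h4 : w ∈ Submodule.span ℝ (range bs) := by
      have h5 := (EuclideanSpace.basisFun (Fin 3) ℝ).toBasis.span_eq
      rw [OrthonormalBasis.coe_toBasis] at h5
      have h6 : Submodule.span ℝ (range bs) = ⊤ := h5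
      rw [h6]; trivial
    have h7 := Submodule.mem_map_of_mem (f := (L : E3 →ₗ[ℝ] E)) h4
    rw [Submodule.map_span, ← range_comp] at h7
    exact h7
  exact Submodule.disjoint_def.1 hdis u h3 hu

/-- the form `a ⊗ a + da` at the point `j y` -/
def hb (a : (x : M) → TangentSpace 𝓘(ℝ, E) x →L[ℝ] ℝ) (j : N → M) (y : N) : E →L[ℝ] E →L[ℝ] ℝ :=
  HB a (j y)

/-- An invariant normal form: a smooth family of bilinear forms on the tangent spaces of `M` along
`j`, whose left and right kernels are the tangent spaces of `N`, invariant under the flow. -/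
structure Nor (Fl : M → ℝ → M) (Ψ : N → ℝ → N) (j : N → M)
    (β : N → E →L[ℝ] E →L[ℝ] ℝ) : Prop where
  smooth : ∀ y₀, SmoothBilinAt (I := 𝓘(ℝ, E)) 𝓘(ℝ, E3) j β y₀
  left : ∀ y (u : E3) (v : E), β y (dJ E j y u) v = 0
  right : ∀ y (u : E3) (v : E), β y v (dJ E j y u) = 0
  ker : ∀ y (u : E), (∀ v, β y u v = 0) → ∃ w, dJ E j y w = u
  inv : ∀ t y (u v : E), β (Ψ y t) (dE E (fun x => Fl x t) (j y) u)
    (dE E (fun x => Fl x t) (j y) v) = β y u v

section

variable {k : ℕ} (hk : Module.finrank ℝ E = 3 + k) {j : N → M} (c : CD a R) (h : Tan R j)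

include hk c h in
lemma exists_tau (y : N) : ∃ τ : Fin k → E,
    (gram (hb a j y) (Sum.elim (Jv (dJ E j y)) τ)).det ≠ 0 :=
  exists_compl hk (h.inj y) fun u hu => HB_nondeg c.contact c.reeb (j y) u hu

/-- a complement -/
def tau (y : N) : Fin k → E := Classical.choose (exists_tau hk c h y)

lemma tau_spec (y : N) : (gram (hb a j y) (Sum.elim (Jv (dJ E j y)) (tau hk c h y))).det ≠ 0 :=
  Classical.choose_spec (exists_tau hk c h y)

/-- the square of the invariant density (in the preferred chart) -/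
def G (β : N → E →L[ℝ] E →L[ℝ] ℝ) (y : N) : ℝ :=
  |(gram (hb a j y) (Sum.elim (Jv (dJ E j y)) (tau hk c h y))).det| / |(gram (β y) (tau hk c h y)).det|

variable {Fl : M → ℝ → M} {Ψ : N → ℝ → N} {β : N → E →L[ℝ] E →L[ℝ] ℝ}

include hk in
lemma Nor.det_ne (hβ : Nor Fl Ψ j β) {y : N} {τ : Fin k → E}
    (hτ : (gram (hb a j y) (Sum.elim (Jv (dJ E j y)) τ)).det ≠ 0) : (gram (β y) τ).det ≠ 0 :=
  det_nor_ne hk hτ (hβ.right y) (hβ.ker y)

lemma G_pos (hβ : Nor Fl Ψ j β) (y : N) : 0 < G hk c h β y :=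
  div_pos (abs_pos.2 (tau_spec hk c h y)) (abs_pos.2 (hβ.det_ne hk (tau_spec hk c h y)))

lemma G_eq (hβ : Nor Fl Ψ j β) {y : N} {τ : Fin k → E}
    (hτ : (gram (hb a j y) (Sum.elim (Jv (dJ E j y)) τ)).det ≠ 0) :
    |(gram (hb a j y) (Sum.elim (Jv (dJ E j y)) τ)).det| = G hk c h β y * |(gram (β y) τ).det| := by
  have h1 := ratio_eq (B := hb a j y) (β := β y) (J := Jv (dJ E j y)) (τ := τ)
    (τ' := tau hk c h y) (by simp [hk]) hτ (fun i u => hβ.left y _ u) (fun i u => hβ.right y _ u)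
  have h2 := congrArg abs h1
  rw [abs_mul, abs_mul] at h2
  have h3 : |(gram (β y) (tau hk c h y)).det| ≠ 0 :=
    abs_ne_zero.2 (hβ.det_ne hk (tau_spec hk c h y))
  rw [G, div_mul_eq_mul_div, eq_div_iff h3, h2]

/-- pulling back the forms by linear maps -/
lemma gram_map {V W ι : Type*} [NormedAddCommGroup V] [NormedSpace ℝ V] [NormedAddCommGroup W]
    [NormedSpace ℝ W] {B : V →L[ℝ] V →L[ℝ] ℝ} {B' : W →L[ℝ] W →L[ℝ] ℝ} {A : V → W}
    (hA : ∀ u v, B' (A u) (A v) = B u v) (v : ι → V) [Fintype ι] [DecidableEq ι] :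
    gram B' (fun i => A (v i)) = gram B v := by
  ext i j
  exact hA _ _

include c in
lemma hb_inv (hF : RF a R Fl) (hΨ : NFlow R h Fl Ψ) (t : ℝ) (y : N) (u v : E) :
    hb a j (Ψ y t) (dE E (fun x => Fl x t) (j y) u) (dE E (fun x => Fl x t) (j y) v) =
      hb a j y u v := by
  have h1 : pullForm 𝓘(ℝ, E) 𝓘(ℝ, E) (fun x => Fl x t) a = a := by
    ext1 x
    exact ContinuousLinearMap.ext fun w => hF.strict t x w
  have h2 := extDer_pull (hF.smooth_t t) c.contact.smooth (j y) u v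
  rw [h1] at h2
  have e0 : j (Ψ y t) = Fl (j y) t := hΨ.comm y t
  have e1 := hF.strict t (j y) u
  have e2 := hF.strict t (j y) v
  have key : ∀ z : M, z = Fl (j y) t → ∀ u' v' : E, (HB a z : E →L[ℝ] E →L[ℝ] ℝ) u' v' =
      (HB a (Fl (j y) t) : E →L[ℝ] E →L[ℝ] ℝ) u' v' := by
    rintro z rfl u' v'; rfl
  have h3 := key _ e0 (dE E (fun x => Fl x t) (j y) u) (dE E (fun x => Fl x t) (j y) v)
  refine h3.trans ?_
  have h4 := HB_apply (β := a) (Fl (j y) t) (dE E (fun x => Fl x t) (j y) u)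
    (dE E (fun x => Fl x t) (j y) v)
  have h5 := HB_apply (β := a) (j y) u v
  refine h4.trans (Eq.trans ?_ h5.symm)
  have e1' : a (Fl (j y) t) (dE E (fun x => Fl x t) (j y) u) = a (j y) u := e1
  have e2' : a (Fl (j y) t) (dE E (fun x => Fl x t) (j y) v) = a (j y) v := e2
  rw [e1', e2', h2]
  rfl

/-- **Invariance of the density.** -/
lemma G_inv (hF : RF a R Fl) (hΨ : NFlow R h Fl Ψ) (hβ : Nor Fl Ψ j β) (t : ℝ) (y : N) :
    G hk c h β y = (dN (fun z => Ψ z t) y).det ^ 2 * G hk c h β (Ψ y t) := by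
  set τ := tau hk c h y with hτdef
  have hτ := tau_spec hk c h y
  set F := dE E (fun x => Fl x t) (j y) with hFdef
  set A := dN (fun z => Ψ z t) y with hA
  -- the vectors at the image point
  have h1 : (gram (hb a j (Ψ y t)) (Sum.elim (Jv ((dJ E j (Ψ y t)).comp A)) (fun i => F (τ i)))).det =
      (gram (hb a j y) (Sum.elim (Jv (dJ E j y)) τ)).det := by
    rw [← gram_map (B := hb a j y) (B' := hb a j (Ψ y t)) (A := F) (hb_inv c h hF hΨ t y)]
    congr 2
    ext1 i
    rcases i with i | i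
    · exact hΨ.deriv_comm hF t y (bs i)
    · rfl
  have h2 : (gram (β (Ψ y t)) (fun i => F (τ i))).det = (gram (β y) τ).det := by
    rw [gram_map (B := β y) (A := F) (hβ.inv t y)]
  have h3 := det_gram_sum_left (hb a j (Ψ y t)) (Jv (dJ E j (Ψ y t))) (fun i => F (τ i)) (mat A)
  rw [← Jv_comp, h1, det_mat] at h3
  have h4 : (gram (hb a j (Ψ y t)) (Sum.elim (Jv (dJ E j (Ψ y t))) (fun i => F (τ i)))).det ≠ 0 := by
    intro h0
    rw [h0, mul_zero] at h3
    exact hτ h3
  have h5 := G_eq hk c h hβ h4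
  have h6 := G_eq hk c h hβ hτ
  rw [h3, abs_mul, h5, h2, abs_of_nonneg (sq_nonneg _)] at h6
  have h7 : |(gram (β y) τ).det| ≠ 0 := abs_ne_zero.2 (hβ.det_ne hk hτ)
  have h8 : (A.det ^ 2 * G hk c h β (Ψ y t)) * |(gram (β y) τ).det| =
      G hk c h β y * |(gram (β y) τ).det| := by rw [← h6]; ring
  exact (mul_right_cancel₀ h7 h8).symm

end

end Pool.Agent.H904.W3
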