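import Mathlib
import Pool.Agent.H904.W3.Vol

/-!
# The invariant volume is smooth; the main theorem for invariant normal forms
-/

open scoped Topology ContDiff Manifold
open Set Filter Bundle Pool.Agent.Helper186 Pool.Agent.H826R2.Wein Pool.Agent.W671.WU
  Pool.Agent.X167.W

noncomputable section

namespace Pool.Agent.H904.W3

set_option linter.unusedSectionVars false

universe u w

variable {E : Type u} [NormedAddCommGroup E] [NormedSpace ℝ E] [FiniteDimensional ℝ E]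
  {M : Type*} [TopologicalSpace M] [ChartedSpace E M] [IsManifold 𝓘(ℝ, E) ∞ M]
  {a : (x : M) → TangentSpace 𝓘(ℝ, E) x →L[ℝ] ℝ} {R : (x : M) → TangentSpace 𝓘(ℝ, E) x}
  {N : Type w} [TopologicalSpace N] [ChartedSpace E3 N] [IsManifold 𝓘(ℝ, E3) ∞ N]

/-- Determinants of smooth matrices are smooth. -/
lemma contMDiffAt_det {ι : Type*} [Fintype ι] [DecidableEq ι] {m : N → Matrix ι ι ℝ} {y₀ : N}
    (h : ∀ i l, ContMDiffAt 𝓘(ℝ, E3) 𝓘(ℝ, ℝ) ∞ (fun y => m y i l) y₀) :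
    ContMDiffAt 𝓘(ℝ, E3) 𝓘(ℝ, ℝ) ∞ (fun y => (m y).det) y₀ := by
  have h1 : ContDiff ℝ ∞ (fun A : ι → ι → ℝ => (Matrix.of A).det) := by
    simp_rw [Matrix.det_apply']
    refine ContDiff.sum fun σ _ => contDiff_const.mul ?_
    refine contDiff_prod fun i _ => ?_
    exact contDiff_apply_apply ℝ ℝ _ _
  have h2 : ContMDiffAt 𝓘(ℝ, E3) 𝓘(ℝ, ι → ι → ℝ) ∞ (fun y => fun i l => m y i l) y₀ := by
    rw [contMDiffAt_pi_space]
    intro i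
    rw [contMDiffAt_pi_space]
    intro l
    exact h i l
  exact h1.contMDiff.contMDiffAt.comp y₀ h2

lemma contMDiffAt_gram {ι : Type*} [Fintype ι] [DecidableEq ι] {j : N → M}
    {B : N → E →L[ℝ] E →L[ℝ] ℝ} {y₀ : N} (hB : SmoothBilinAt (I := 𝓘(ℝ, E)) 𝓘(ℝ, E3) j B y₀)
    {v : N → ι → E} (hv : ∀ i, ContMDiffAt 𝓘(ℝ, E3) 𝓘(ℝ, E).tangent ∞
      (fun y => (⟨j y, v y i⟩ : TangentBundle 𝓘(ℝ, E) M)) y₀) :
    ContMDiffAt 𝓘(ℝ, E3) 𝓘(ℝ, ℝ) ∞ (fun y => (gram (B y) (v y)).det) y₀ :=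
  contMDiffAt_det fun i l => hB (fun y => v y i) (fun y => v y l) (hv i) (hv l)

lemma smooth_hb (c : CD a R) {j : N → M} (hj : ContMDiff 𝓘(ℝ, E3) 𝓘(ℝ, E) ∞ j) (y₀ : N) :
    SmoothBilinAt (I := 𝓘(ℝ, E)) 𝓘(ℝ, E3) j (hb a j) y₀ := by
  intro u v hu hv
  have h1 : ContMDiffAt 𝓘(ℝ, E3) 𝓘(ℝ, ℝ) ∞ (fun p => a (j p) (u p)) y₀ :=
    c.contact.smooth.comp hu le_rfl
  have h2 : ContMDiffAt 𝓘(ℝ, E3) 𝓘(ℝ, ℝ) ∞ (fun p => a (j p) (v p)) y₀ :=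
    c.contact.smooth.comp hv le_rfl
  have h3 := smoothBilinAt_extDer c.contact.smooth (f := j) (hj y₀) u v hu hv
  exact (h1.mul h2).add h3

/-- the trivialization of the tangent bundle of `N` -/
def Lm (y₀ y : N) : E3 →L[ℝ] E3 := (trivializationAt E3 (TangentSpace 𝓘(ℝ, E3)) y₀).symmL ℝ y

lemma symmL_self {F : Type*} [NormedAddCommGroup F] [NormedSpace ℝ F] {X : Type*}
    [TopologicalSpace X] [ChartedSpace F X] [IsManifold 𝓘(ℝ, F) ∞ X] (x : X) (u : F) :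
    ((trivializationAt F (TangentSpace 𝓘(ℝ, F)) x).symmL ℝ x u : F) = u := by
  have hx : x ∈ (chartAt F x).source := mem_chart_source F x
  have h3 := TangentBundle.symmL_trivializationAt_eq_core (I := 𝓘(ℝ, F)) hx
  rw [h3]
  exact (tangentBundleCore 𝓘(ℝ, F) X).coordChange_self _ _ (by simp) u

lemma smooth_Lm (y₀ : N) (u : E3) : ContMDiffAt 𝓘(ℝ, E3) 𝓘(ℝ, E3).tangent ∞
    (fun y => (⟨y, (Lm y₀ y u : E3)⟩ : TangentBundle 𝓘(ℝ, E3) N)) y₀ :=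
  contMDiffAt_symmL (f := fun y : N => y) contMDiffAt_id u

lemma Lm_self (y₀ : N) : Lm y₀ y₀ = ContinuousLinearMap.id ℝ E3 :=
  ContinuousLinearMap.ext fun u => symmL_self y₀ u

lemma Lm_eq {y₀ y : N} (hy : y ∈ (chartAt E3 y₀).source) :
    Lm y₀ y = H826R2.WStmt.D (extChartAt 𝓘(ℝ, E3) y₀).symm (extChartAt 𝓘(ℝ, E3) y₀ y) := by
  have h3 := TangentBundle.symmL_trivializationAt (I := 𝓘(ℝ, E3)) hy
  have h4 : range 𝓘(ℝ, E3) = univ := by simp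
  rw [h4, mfderivWithin_univ] at h3
  exact h3

/-- the coefficient of a volume form in the chart at `y₀` -/
lemma smooth_coeff {μ : N → ℝ} (hμ : IsVolumeForm μ) (y₀ : N) :
    ContMDiffAt 𝓘(ℝ, E3) 𝓘(ℝ, ℝ) ∞ (fun y => μ y * (Lm y₀ y).det) y₀ := by
  have h1 := (hμ.smooth y₀).contDiffAt (extChartAt_target_mem_nhds (I := 𝓘(ℝ, E3)) y₀)
  have h2 := h1.contMDiffAt.comp y₀ (contMDiffAt_extChartAt (I := 𝓘(ℝ, E3)) (x := y₀) (n := ∞))
  refine h2.congr_of_eventuallyEq ?_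
  filter_upwards [extChartAt_source_mem_nhds (I := 𝓘(ℝ, E3)) y₀] with y hy
  have hy' : y ∈ (chartAt E3 y₀).source := by rwa [extChartAt_source] at hy
  have e1 : (extChartAt 𝓘(ℝ, E3) y₀).symm (extChartAt 𝓘(ℝ, E3) y₀ y) = y :=
    (extChartAt 𝓘(ℝ, E3) y₀).left_inv hy
  rw [Lm_eq hy', Function.comp_apply, e1]

section

variable {k : ℕ} (hk : Module.finrank ℝ E = 3 + k) {j : N → M} (c : CD a R) (h : Tan R j)
  {Fl : M → ℝ → M} {Ψ : N → ℝ → N} {β : N → E →L[ℝ] E →L[ℝ] ℝ}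

/-- the density relative to the given volume form is smooth -/
lemma smooth_h {μ : N → ℝ} (hμ : IsVolumeForm μ) (hβ : Nor Fl Ψ j β) :
    ContMDiff 𝓘(ℝ, E3) 𝓘(ℝ, ℝ) ∞ (fun y => G hk c h β y / (μ y) ^ 2) := by
  intro y₀
  set τ := tau hk c h y₀ with hτdef
  have hτ := tau_spec hk c h y₀
  -- the local frames
  let W : N → Fin k → E := fun y i =>
    (trivializationAt E (TangentSpace 𝓘(ℝ, E)) (j y₀)).symmL ℝ (j y) (τ i)
  have hW0 : W y₀ = τ := funext fun i => symmL_self (j y₀) (τ i)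
  have hW : ∀ i, ContMDiffAt 𝓘(ℝ, E3) 𝓘(ℝ, E).tangent ∞
      (fun y => (⟨j y, W y i⟩ : TangentBundle 𝓘(ℝ, E) M)) y₀ := fun i =>
    contMDiffAt_symmL (h.smooth y₀) (τ i)
  let U : N → Fin 3 → E := fun y => Jv ((dJ E j y).comp (Lm y₀ y))
  have hU : ∀ i, ContMDiffAt 𝓘(ℝ, E3) 𝓘(ℝ, E).tangent ∞
      (fun y => (⟨j y, U y i⟩ : TangentBundle 𝓘(ℝ, E) M)) y₀ := fun i =>
    Tan.push_section h.smooth (smooth_Lm y₀ (bs i))
  have hU0 : U y₀ = Jv (dJ E j y₀) := by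
    show Jv ((dJ E j y₀).comp (Lm y₀ y₀)) = _
    rw [Lm_self, ContinuousLinearMap.comp_id]
  let K1 : N → ℝ := fun y => (gram (hb a j y) (Sum.elim (U y) (W y))).det
  let K2 : N → ℝ := fun y => (gram (β y) (W y)).det
  let K3 : N → ℝ := fun y => μ y * (Lm y₀ y).det
  have hK1 : ContMDiffAt 𝓘(ℝ, E3) 𝓘(ℝ, ℝ) ∞ K1 y₀ := by
    refine contMDiffAt_gram (smooth_hb c h.smooth y₀) fun i => ?_
    rcases i with i | i
    · exact hU i
    · exact hW i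
  have hK2 : ContMDiffAt 𝓘(ℝ, E3) 𝓘(ℝ, ℝ) ∞ K2 y₀ :=
    contMDiffAt_gram (hβ.smooth y₀) hW
  have hK3 : ContMDiffAt 𝓘(ℝ, E3) 𝓘(ℝ, ℝ) ∞ K3 y₀ := smooth_coeff hμ y₀
  have hK10 : K1 y₀ ≠ 0 := by
    show (gram (hb a j y₀) (Sum.elim (U y₀) (W y₀))).det ≠ 0
    rw [hU0, hW0]
    exact hτ
  have hK20 : K2 y₀ ≠ 0 := by
    show (gram (β y₀) (W y₀)).det ≠ 0
    rw [hW0]
    exact hβ.det_ne hk hτ
  have hK30 : K3 y₀ ≠ 0 := by
    show μ y₀ * (Lm y₀ y₀).det ≠ 0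
    rw [Lm_self]
    have h1 : (ContinuousLinearMap.id ℝ E3).det = 1 := LinearMap.det_id
    rw [h1, mul_one]
    exact hμ.ne_zero y₀
  have h1 : ∀ᶠ y in 𝓝 y₀, G hk c h β y / (μ y) ^ 2 = |K1 y| / (|K2 y| * K3 y ^ 2) := by
    filter_upwards [hK1.continuousAt.eventually_ne hK10, hK2.continuousAt.eventually_ne hK20,
      hK3.continuousAt.eventually_ne hK30] with y h1 h2 h3
    have e1 : K1 y = (Lm y₀ y).det ^ 2 *
        (gram (hb a j y) (Sum.elim (Jv (dJ E j y)) (W y))).det := by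
      have e2 := det_gram_sum_left (hb a j y) (Jv (dJ E j y)) (W y) (mat (Lm y₀ y))
      rw [← Jv_comp, det_mat] at e2
      exact e2
    have e3 : (gram (hb a j y) (Sum.elim (Jv (dJ E j y)) (W y))).det ≠ 0 := by
      intro h0
      rw [h0, mul_zero] at e1
      exact h1 e1
    have e4 := G_eq hk c h hβ e3
    have e5 : |K1 y| = (Lm y₀ y).det ^ 2 * (G hk c h β y * |K2 y|) := by
      rw [e1, abs_mul, abs_of_nonneg (sq_nonneg _), e4]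
    have e6 : (Lm y₀ y).det ≠ 0 := by
      intro h0
      apply h3
      show μ y * (Lm y₀ y).det = 0
      rw [h0, mul_zero]
    have e7 : |K2 y| ≠ 0 := abs_ne_zero.2 h2
    have e8 := hμ.ne_zero y
    rw [e5]
    show _ = _ / (|K2 y| * (μ y * (Lm y₀ y).det) ^ 2)
    field_simp
  have hK4 : ContMDiffAt 𝓘(ℝ, E3) 𝓘(ℝ, ℝ) ∞
      (fun y => |K1 y| / (|K2 y| * K3 y ^ 2)) y₀ := by
    have e1 : ContDiffAt ℝ ∞ (fun p : ℝ × ℝ × ℝ => |p.1| / (|p.2.1| * p.2.2 ^ 2))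
        (K1 y₀, K2 y₀, K3 y₀) := by
      have a1 : ContDiffAt ℝ ∞ (fun p : ℝ × ℝ × ℝ => |p.1|) (K1 y₀, K2 y₀, K3 y₀) :=
        (contDiffAt_abs hK10).comp (K1 y₀, K2 y₀, K3 y₀) contDiffAt_fst
      have a2 : ContDiffAt ℝ ∞ (fun p : ℝ × ℝ × ℝ => |p.2.1|) (K1 y₀, K2 y₀, K3 y₀) :=
        (contDiffAt_abs hK20).comp (K1 y₀, K2 y₀, K3 y₀) (contDiffAt_fst.comp _ contDiffAt_snd)
      have a3 : ContDiffAt ℝ ∞ (fun p : ℝ × ℝ × ℝ => p.2.2 ^ 2) (K1 y₀, K2 y₀, K3 y₀) :=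
        (contDiffAt_snd.comp _ contDiffAt_snd).pow 2
      refine a1.div (a2.mul a3) ?_
      exact mul_ne_zero (abs_ne_zero.2 hK20) (pow_ne_zero _ hK30)
    exact e1.contMDiffAt.comp y₀ (hK1.prodMk_space (hK2.prodMk_space hK3))
  exact hK4.congr_of_eventuallyEq h1

/-- the invariant volume form -/
lemma exists_volume [T2Space M] {μ₀ : N → ℝ} (hμ : IsVolumeForm μ₀) (hF : RF a R Fl)
    (hΨ : NFlow R h Fl Ψ) (hβ : Nor Fl Ψ j β) (hk : Module.finrank ℝ E = 3 + k) (c : CD a R) :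
    ∃ μ : N → ℝ, IsVolumeForm μ ∧ Preserves Ψ μ := by
  have hs := smooth_h hk c h hμ hβ
  have hpos : ∀ y, 0 < G hk c h β y / (μ₀ y) ^ 2 := fun y =>
    div_pos (G_pos hk c h hβ y) (pow_pos (lt_of_le_of_ne (abs_nonneg _) (abs_ne_zero.2 (hμ.ne_zero y)).symm) 2 |>.trans_eq (sq_abs _))
  have hsq : ContMDiff 𝓘(ℝ, E3) 𝓘(ℝ, ℝ) ∞ (fun y => Real.sqrt (G hk c h β y / (μ₀ y) ^ 2)) := by
    intro y
    exact (Real.contDiffAt_sqrt (hpos y).ne').contMDiffAt.comp y (hs y)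
  have habs : ∀ y, |μ₀ y * Real.sqrt (G hk c h β y / (μ₀ y) ^ 2)| = Real.sqrt (G hk c h β y) := by
    intro y
    rw [abs_mul, Real.sqrt_div (G_pos hk c h hβ y).le, Real.sqrt_sq_eq_abs, abs_div, abs_abs,
      abs_of_nonneg (Real.sqrt_nonneg _)]
    exact mul_div_cancel₀ _ (abs_ne_zero.2 (hμ.ne_zero y))
  refine ⟨fun y => μ₀ y * Real.sqrt (G hk c h β y / (μ₀ y) ^ 2), ⟨fun y => ?_, fun x => ?_⟩,
    fun t y => ?_⟩
  · exact mul_ne_zero (hμ.ne_zero y) (Real.sqrt_pos.2 (hpos y)).ne'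
  · have h1 : ContDiffOn ℝ ∞ (fun p : E3 => Real.sqrt (G hk c h β ((extChartAt 𝓘(ℝ, E3) x).symm p) /
        (μ₀ ((extChartAt 𝓘(ℝ, E3) x).symm p)) ^ 2)) (extChartAt 𝓘(ℝ, E3) x).target := by
      rw [← contMDiffOn_iff_contDiffOn]
      exact hsq.comp_contMDiffOn (contMDiffOn_extChartAt_symm (n := ∞) x)
    refine ((hμ.smooth x).mul h1).congr fun p _ => ?_
    ring
  · have h1 := G_inv hk c h hF hΨ hβ t y
    show |μ₀ (Ψ y t) * _ * (dN (fun z => Ψ z t) y).det| = _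
    rw [abs_mul, habs, habs, h1, Real.sqrt_mul (sq_nonneg _), Real.sqrt_sq_eq_abs, mul_comm]

end

/-- **The main theorem for invariant normal forms.** -/
theorem stable_of_nor [T2Space M] [CompactSpace M]
    {k : ℕ} (hk : Module.finrank ℝ E = 3 + k) (c : CD a R)
    {Fl : M → ℝ → M} (hF : RF a R Fl) {j : N → M} (h : Tan R j)
    {μ₀ : N → ℝ} (hμ : IsVolumeForm μ₀)
    {Ψ : N → ℝ → N} (hΨ : NFlow R h Fl Ψ)
    {β : N → E →L[ℝ] E →L[ℝ] ℝ} (hβ : Nor Fl Ψ j β) :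
    ∃ μ : N → ℝ, IsStableReeb (pullForm 𝓘(ℝ, E) 𝓘(ℝ, E3) j a) h.RN Ψ μ := by
  obtain ⟨μ, h1, h2⟩ := exists_volume h hμ hF hΨ hβ hk c
  obtain ⟨i1, i2, i3⟩ := induced_form c h
  exact ⟨μ, i1, h.smooth_RN c, ⟨i2, i3⟩, hΨ.flow, h1, h2⟩

end Pool.Agent.H904.W3
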