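import Mathlib
import Pool.Agent.H904.W3.Smooth

/-!
# Invariant normal forms from first integrals and from strict contactomorphisms
-/

open scoped Topology ContDiff Manifold
open Set Filter Bundle Pool.Agent.Helper186 Pool.Agent.H826R2.Wein Pool.Agent.W671.WU
  Pool.Agent.X167.W

noncomputable section

namespace Pool.Agent.H904.W3

set_option linter.unusedSectionVars false

universe u w

variable {E : Type u} [NormedAddCommGroup E] [NormedSpace ℝ E] [FiniteDimensional ℝ E]
  {M : Type*} [TopologicalSpace M] [ChartedSpace E M] [IsManifold 𝓘(ℝ, E) ∞ M]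
  {a : (x : M) → TangentSpace 𝓘(ℝ, E) x →L[ℝ] ℝ} {R : (x : M) → TangentSpace 𝓘(ℝ, E) x}
  {N : Type w} [TopologicalSpace N] [ChartedSpace E3 N] [IsManifold 𝓘(ℝ, E3) ∞ N]

/-! ### First integrals -/

/-- the differential as a linear form on the model space -/
def dff (f : M → ℝ) (x : M) : E →L[ℝ] ℝ := dForm 𝓘(ℝ, E) f x

/-- first integrals are constant on the orbits -/
lemma const_flow {Fl : M → ℝ → M} (hF : RF a R Fl) {f : M → ℝ}
    (hf : ContMDiff 𝓘(ℝ, E) 𝓘(ℝ, ℝ) ∞ f) (hfR : ∀ x, dff f x (rE R x) = 0) (x : M) (t : ℝ) :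
    f (Fl x t) = f x := by
  have h1 : ∀ s, HasDerivAt (fun s => f (Fl x s)) 0 s := by
    intro s
    have h2 := hasDerivAt_along (hF.int x s) hf
    refine h2.congr_deriv ?_
    exact hfR _
  have h2 := is_const_of_deriv_eq_zero (fun s => (h1 s).differentiableAt)
    (fun s => (h1 s).deriv) t 0
  simp only [hF.zero] at h2
  exact h2

/-- the differential of a first integral is invariant -/
lemma dff_flow {Fl : M → ℝ → M} (hF : RF a R Fl) {f : M → ℝ}
    (hf : ContMDiff 𝓘(ℝ, E) 𝓘(ℝ, ℝ) ∞ f) (hfR : ∀ x, dff f x (rE R x) = 0) (x : M) (t : ℝ)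
    (u : E) : dff f (Fl x t) (dE E (fun x => Fl x t) x u) = dff f x u := by
  have h1 : mfderiv 𝓘(ℝ, E) 𝓘(ℝ, ℝ) (f ∘ fun x => Fl x t) x =
      (mfderiv 𝓘(ℝ, E) 𝓘(ℝ, ℝ) f (Fl x t)).comp (mfderiv 𝓘(ℝ, E) 𝓘(ℝ, E) (fun x => Fl x t) x) :=
    mfderiv_comp x (hf.mdifferentiableAt (by simp)) ((hF.smooth_t t).mdifferentiableAt (by simp))
  have h2 : (f ∘ fun x => Fl x t) = f := funext fun z => const_flow hF hf hfR z t
  rw [h2] at h1
  exact (DFunLike.congr_fun h1 u).symm

/-- the normal form of first integrals -/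
def normInt {k : ℕ} (f : Fin k → M → ℝ) (j : N → M) (y : N) : E →L[ℝ] E →L[ℝ] ℝ :=
  ∑ i, (dff (E := E) (f i) (j y)).smulRight (dff (E := E) (f i) (j y))

lemma normInt_apply {k : ℕ} (f : Fin k → M → ℝ) (j : N → M) (y : N) (u v : E) :
    normInt (E := E) f j y u v = ∑ i, dff (E := E) (f i) (j y) u * dff (E := E) (f i) (j y) v := by
  rw [normInt, ContinuousLinearMap.sum_apply, ContinuousLinearMap.sum_apply]
  rfl

lemma nor_of_integrals {k : ℕ} (hk : Module.finrank ℝ E = 3 + k) {j : N → M} (h : Tan R j)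
    {Fl : M → ℝ → M} (hF : RF a R Fl) {Ψ : N → ℝ → N} (hΨ : NFlow R h Fl Ψ)
    {f : Fin k → M → ℝ} (hf : ∀ i, ContMDiff 𝓘(ℝ, E) 𝓘(ℝ, ℝ) ∞ (f i))
    (hfR : ∀ i x, dff (E := E) (f i) x (rE R x) = 0)
    (hN : ∀ (i : Fin k) (y : N) (u : E3), dff (E := E) (f i) (j y) (dJ E j y u) = 0)
    (hsurj : ∀ y, Function.Surjective fun (u : E) (i : Fin k) => dff (E := E) (f i) (j y) u) :
    Nor Fl Ψ j (normInt (E := E) f j) where
  smooth := by
    intro y₀ u v hu hv
    have h1 : ∀ i, ContMDiffAt 𝓘(ℝ, E3) 𝓘(ℝ, ℝ) ∞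
        (fun y => dForm 𝓘(ℝ, E) (f i) (j y) (u y) * dForm 𝓘(ℝ, E) (f i) (j y) (v y)) y₀ :=
      fun i => ((smoothForm_dForm (hf i)).comp hu le_rfl).mul
        ((smoothForm_dForm (hf i)).comp hv le_rfl)
    have h2 : ContMDiffAt 𝓘(ℝ, E3) 𝓘(ℝ, ℝ) ∞ (fun y => ∑ i,
        dForm 𝓘(ℝ, E) (f i) (j y) (u y) * dForm 𝓘(ℝ, E) (f i) (j y) (v y)) y₀ :=
      contMDiffAt_finset_sum fun i _ => h1 i
    refine h2.congr_of_eventuallyEq (Filter.Eventually.of_forall fun y => ?_)
    exact normInt_apply (E := E) f j y (u y : E) (v y : E)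
  left := by
    intro y u v
    rw [normInt_apply]
    exact Finset.sum_eq_zero fun i _ => by rw [hN, zero_mul]
  right := by
    intro y u v
    rw [normInt_apply]
    exact Finset.sum_eq_zero fun i _ => by rw [hN, mul_zero]
  ker := by
    intro y u hu
    have h1 : ∀ i, dff (E := E) (f i) (j y) u = 0 := by
      have h2 := hu u
      rw [normInt_apply] at h2
      have h3 := (Finset.sum_eq_zero_iff_of_nonneg
        (fun i _ => mul_self_nonneg (dff (E := E) (f i) (j y) u))).1 h2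
      exact fun i => mul_self_eq_zero.1 (h3 i (Finset.mem_univ i))
    let F : E →ₗ[ℝ] (Fin k → ℝ) := LinearMap.pi fun i => (dff (E := E) (f i) (j y) : E →ₗ[ℝ] ℝ)
    have hFs : LinearMap.range F = ⊤ := LinearMap.range_eq_top.2 (hsurj y)
    have h4 := LinearMap.finrank_range_add_finrank_ker F
    rw [hFs, finrank_top, Module.finrank_fin_fun, hk] at h4
    have h5 : LinearMap.range (dJ E j y : E3 →ₗ[ℝ] E) ≤ LinearMap.ker F := by
      rintro _ ⟨w, rfl⟩
      rw [LinearMap.mem_ker]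
      exact funext fun i => hN i y w
    have h6 : Module.finrank ℝ (LinearMap.range (dJ E j y : E3 →ₗ[ℝ] E)) = 3 := by
      rw [LinearMap.finrank_range_of_inj (h.inj y)]
      simp
    have h7 := Submodule.eq_of_le_of_finrank_eq h5 (by rw [h6]; omega)
    have h8 : u ∈ LinearMap.ker F := by
      rw [LinearMap.mem_ker]
      exact funext h1
    rw [← h7] at h8
    exact h8
  inv := by
    intro t y u v
    rw [normInt_apply, normInt_apply]
    refine Finset.sum_congr rfl fun i _ => ?_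
    rw [hΨ.comm, dff_flow hF (hf i) (hfR i), dff_flow hF (hf i) (hfR i)]

/-! ### Strict contactomorphisms -/

/-- the exterior derivative as a bilinear form on the model space -/
def dab (a : (x : M) → TangentSpace 𝓘(ℝ, E) x →L[ℝ] ℝ) (x : M) : E →L[ℝ] E →L[ℝ] ℝ :=
  (show E →L[ℝ] E →L[ℝ] ℝ from HB a x) - (bE a x).smulRight (bE a x)

lemma dab_apply (x : M) (u v : E) : dab a x u v = extDer 𝓘(ℝ, E) a x u v := by
  have h1 := HB_apply (β := a) x u v
  have h2 : dab a x u v = (HB a x : E →L[ℝ] E →L[ℝ] ℝ) u v - bE a x u * bE a x v := rfl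
  rw [h2]
  have h3 : (HB a x : E →L[ℝ] E →L[ℝ] ℝ) u v = bE a x u * bE a x v + extDer 𝓘(ℝ, E) a x u v := h1
  rw [h3]
  ring

lemma dab_strict (c : CD a R) {g : M → M} (hg : ContMDiff 𝓘(ℝ, E) 𝓘(ℝ, E) ∞ g)
    (hs : Strict a g) (x : M) (u v : E) :
    dab a (g x) (dE E g x u) (dE E g x v) = dab a x u v := by
  have h1 : pullForm 𝓘(ℝ, E) 𝓘(ℝ, E) g a = a := by
    ext1 x
    exact ContinuousLinearMap.ext fun w => hs x w
  have h2 := extDer_pull hg c.contact.smooth x u v
  rw [h1] at h2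
  rw [dab_apply, dab_apply, h2]
  rfl

lemma dab_anti (x : M) (u v : E) : dab a x u v = - dab a x v u := by
  rw [dab_apply, dab_apply]
  unfold extDer
  ring

/-- nondegeneracy -/
lemma dab_nondeg (c : CD a R) (x : M) (u : E) (h0 : bE a x u = 0) (h : ∀ v, dab a x u v = 0) :
    u = 0 := by
  refine HB_nondeg c.contact c.reeb x u fun v => ?_
  have h1 := HB_apply (β := a) x u v
  have h2 : (HB a x : E →L[ℝ] E →L[ℝ] ℝ) u v = bE a x u * bE a x v + dab a x u v := by
    rw [dab_apply]; exact h1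
  have h3 : (HB a x : E →L[ℝ] E →L[ℝ] ℝ) u v = 0 := by rw [h2, h0, h, zero_mul, add_zero]
  exact h3

/-- the normal form of a strict contactomorphism -/
def normMap (a : (x : M) → TangentSpace 𝓘(ℝ, E) x →L[ℝ] ℝ) (g : M → M) (j : N → M) (y : N) :
    E →L[ℝ] E →L[ℝ] ℝ :=
  (dab a (j y)).comp (dE E g (j y) - ContinuousLinearMap.id ℝ E)

lemma normMap_apply (g : M → M) (j : N → M) (y : N) (u v : E) :
    normMap a g j y u v = dab a (j y) (dE E g (j y) u) v - dab a (j y) u v := by
  show dab a (j y) (dE E g (j y) u - u) v = _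
  rw [map_sub]
  rfl

section

variable {g : M → M} {j : N → M}

lemma dg_dJ (hg : ContMDiff 𝓘(ℝ, E) 𝓘(ℝ, E) ∞ g) (h : Tan R j) (hgj : ∀ y, g (j y) = j y) (y : N)
    (u : E3) : dE E g (j y) (dJ E j y u) = dJ E j y u := by
  have h1 : mfderiv 𝓘(ℝ, E3) 𝓘(ℝ, E) (g ∘ j) y =
      (mfderiv 𝓘(ℝ, E) 𝓘(ℝ, E) g (j y)).comp (mfderiv 𝓘(ℝ, E3) 𝓘(ℝ, E) j y) :=
    mfderiv_comp y (hg.mdifferentiableAt (by simp)) (h.mdiff _)
  have h2 : g ∘ j = j := funext hgj
  rw [h2] at h1
  exact (DFunLike.congr_fun h1 u).symm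

lemma dE_comm [T2Space M] (c : CD a R) (hg : ContMDiff 𝓘(ℝ, E) 𝓘(ℝ, E) ∞ g) (hs : Strict a g)
    {Fl : M → ℝ → M} (hF : RF a R Fl) (x : M) (t : ℝ) (u : E) :
    dE E g (Fl x t) (dE E (fun x => Fl x t) x u) =
      dE E (fun x => Fl x t) (g x) (dE E g x u) := by
  have h1 : dE E (g ∘ fun x => Fl x t) x = (dE E g (Fl x t)).comp (dE E (fun x => Fl x t) x) :=
    mfderiv_comp x (hg.mdifferentiableAt (by simp)) ((hF.smooth_t t).mdifferentiableAt (by simp))
  have h2 : dE E ((fun x => Fl x t) ∘ g) x = (dE E (fun x => Fl x t) (g x)).comp (dE E g x) :=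
    mfderiv_comp x ((hF.smooth_t t).mdifferentiableAt (by simp)) (hg.mdifferentiableAt (by simp))
  have h3 : (g ∘ fun x => Fl x t) = (fun x => Fl x t) ∘ g :=
    funext fun z => reeb_conj c hg hs hF z t
  rw [h3] at h1
  exact DFunLike.congr_fun (h1.symm.trans h2) u

lemma nor_of_map [T2Space M] (c : CD a R) (h : Tan R j)
    {Fl : M → ℝ → M} (hF : RF a R Fl) {Ψ : N → ℝ → N} (hΨ : NFlow R h Fl Ψ)
    (hg : ContMDiff 𝓘(ℝ, E) 𝓘(ℝ, E) ∞ g) (hs : Strict a g) (hgj : ∀ y, g (j y) = j y)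
    (hclean : ∀ y (u : E), dE E g (j y) u = u → ∃ w, dJ E j y w = u) :
    Nor Fl Ψ j (normMap a g j) where
  smooth := by
    intro y₀ u v hu hv
    have h1 : ContMDiff 𝓘(ℝ, E).tangent 𝓘(ℝ, E).tangent ∞ (tangentMap 𝓘(ℝ, E) 𝓘(ℝ, E) g) :=
      hg.contMDiff_tangentMap (by simp)
    have h2 := (h1 _).comp y₀ hu
    have h3 : ContMDiffAt 𝓘(ℝ, E3) 𝓘(ℝ, E).tangent ∞
        (fun y => (⟨j y, (dE E g (j y) (u y) : E)⟩ : TangentBundle 𝓘(ℝ, E) M)) y₀ := by
      refine h2.congr_of_eventuallyEq (Filter.Eventually.of_forall fun y => ?_)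
      have key : ∀ (z : M) (w : E), z = j y →
          (⟨j y, w⟩ : TangentBundle 𝓘(ℝ, E) M) = ⟨z, w⟩ := by rintro _ w rfl; rfl
      exact key _ _ (hgj y)
    have h4 := smoothBilinAt_extDer c.contact.smooth (f := j) (h.smooth y₀)
    have h5 := h4 _ v h3 hv
    have h6 := h4 u v hu hv
    refine (h5.sub h6).congr_of_eventuallyEq (Filter.Eventually.of_forall fun y => ?_)
    show normMap a g j y (u y) (v y) = _
    rw [normMap_apply, dab_apply, dab_apply]
    rfl
  left := by
    intro y u v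
    rw [normMap_apply, dg_dJ hg h hgj, sub_self]
  right := by
    intro y u v
    rw [normMap_apply]
    have h1 := dab_strict c hg hs (j y) v (dJ E j y u)
    rw [dg_dJ hg h hgj, hgj] at h1
    rw [h1, sub_self]
  ker := by
    intro y u hu
    apply hclean y u
    rw [← sub_eq_zero]
    apply dab_nondeg c (j y)
    · have h1 := bE_strict hs (j y) u
      rw [hgj] at h1
      rw [map_sub, h1, sub_self]
    · intro v
      have h2 := hu v
      rw [normMap_apply] at h2
      rw [map_sub]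
      exact h2
  inv := by
    intro t y u v
    have e1 := dE_comm c hg hs hF (j y) t u
    rw [hgj] at e1
    have h1 : ∀ p q : E, dab a (Fl (j y) t) (dE E (fun x => Fl x t) (j y) p)
        (dE E (fun x => Fl x t) (j y) q) = dab a (j y) p q := fun p q =>
      dab_strict c (hF.smooth_t t) (hF.strict t) (j y) p q
    rw [normMap_apply, normMap_apply, hΨ.comm, e1, h1, h1]

/-- For a strict contactomorphism of finite order the induced form is a contact form. -/
lemma contact_of_finite_order (c : CD a R) (h : Tan R j)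
    (hg : ContMDiff 𝓘(ℝ, E) 𝓘(ℝ, E) ∞ g) (hs : Strict a g) (hgj : ∀ y, g (j y) = j y)
    (hclean : ∀ y (u : E), dE E g (j y) u = u → ∃ w, dJ E j y w = u)
    {m : ℕ} (hm : 0 < m) (hgm : g^[m] = id) (y : N) (u : E3)
    (hu : bE a (j y) (dJ E j y u) = 0)
    (huv : ∀ v : E3, bE a (j y) (dJ E j y v) = 0 →
      extDer 𝓘(ℝ, E3) (pullForm 𝓘(ℝ, E) 𝓘(ℝ, E3) j a) y u v = 0) : u = 0 := by
  set A := dE E g (j y) with hA
  have hpow : ∀ i : ℕ, ContMDiff 𝓘(ℝ, E) 𝓘(ℝ, E) ∞ g^[i] ∧ g^[i] (j y) = j y ∧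
      dE E g^[i] (j y) = A ^ i := by
    intro i
    induction i with
    | zero => exact ⟨contMDiff_id, rfl, mfderiv_id⟩
    | succ i ih =>
      obtain ⟨i1, i2, i3⟩ := ih
      refine ⟨?_, ?_, ?_⟩
      · rw [Function.iterate_succ]; exact i1.comp hg
      · rw [Function.iterate_succ_apply, hgj, i2]
      · have h1 : dE E (g^[i] ∘ g) (j y) = (dE E g^[i] (g (j y))).comp (dE E g (j y)) :=
          mfderiv_comp _ (i1.mdifferentiableAt (by simp)) (hg.mdifferentiableAt (by simp))
        rw [hgj, i3, ← hA] at h1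
        rw [Function.iterate_succ, h1, pow_succ]
        rfl
  have hAm : A ^ m = 1 := by
    rw [← (hpow m).2.2, hgm]
    exact mfderiv_id
  have hbA : ∀ w, bE a (j y) (A w) = bE a (j y) w := by
    intro w
    have h1 := bE_strict hs (j y) w
    rwa [hgj] at h1
  have hdA : ∀ p q, dab a (j y) (A p) (A q) = dab a (j y) p q := by
    intro p q
    have h1 := dab_strict c hg hs (j y) p q
    rwa [hgj] at h1
  have hAJ : A (dJ E j y u) = dJ E j y u := dg_dJ hg h hgj y u
  have hbi : ∀ (i : ℕ) w, bE a (j y) ((A ^ i) w) = bE a (j y) w := by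
    intro i
    induction i with
    | zero => intro w; rfl
    | succ i ih => intro w; rw [pow_succ']; exact (hbA _).trans (ih w)
  have hdi : ∀ (i : ℕ) w, dab a (j y) (dJ E j y u) ((A ^ i) w) = dab a (j y) (dJ E j y u) w := by
    intro i
    induction i with
    | zero => intro w; rfl
    | succ i ih =>
      intro w
      rw [pow_succ']
      have h1 := hdA (dJ E j y u) ((A ^ i) w)
      rw [hAJ] at h1
      exact h1.trans (ih w)
  -- the average
  have hmain : dJ E j y u = 0 := by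
    apply dab_nondeg c (j y) _ hu
    -- it is enough to consider `w` in the contact hyperplane
    have key : ∀ w : E, bE a (j y) w = 0 → dab a (j y) (dJ E j y u) w = 0 := by
      intro w hw
      set s : E := ∑ i ∈ Finset.range m, (A ^ i) w with hs'
      have hAs : A s = s := by
        have h1 : A s = ∑ i ∈ Finset.range m, (A ^ (i + 1)) w := by
          rw [hs', map_sum]
          exact Finset.sum_congr rfl fun i _ => by rw [pow_succ']; rfl
        have h2 := Finset.sum_range_succ' (fun i => (A ^ i) w) m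
        have h3 := Finset.sum_range_succ (fun i => (A ^ i) w) m
        rw [h3, hAm, pow_zero] at h2
        have h4 : ∑ i ∈ Finset.range m, (A ^ i) w = ∑ i ∈ Finset.range m, (A ^ (i + 1)) w :=
          add_right_cancel h2
        rw [h1, ← h4]
      obtain ⟨v, hv⟩ := hclean y s hAs
      have hbs : bE a (j y) s = 0 := by
        rw [hs', map_sum]
        exact Finset.sum_eq_zero fun i _ => by rw [hbi, hw]
      have h5 : dab a (j y) (dJ E j y u) s = 0 := by
        have h6 := huv v (by rw [hv]; exact hbs)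
        have h7 := extDer_pull (J := 𝓘(ℝ, E3)) h.smooth c.contact.smooth y
          (u : TangentSpace 𝓘(ℝ, E3) y) (v : TangentSpace 𝓘(ℝ, E3) y)
        have h8 : extDer 𝓘(ℝ, E) a (j y) (dJ E j y u) (dJ E j y v) = 0 := h7.symm.trans h6
        rw [← dab_apply, hv] at h8
        exact h8
      have h6 : dab a (j y) (dJ E j y u) s = m • dab a (j y) (dJ E j y u) w := by
        rw [hs', map_sum, Finset.sum_congr rfl fun i _ => hdi i w, Finset.sum_const,
          Finset.card_range]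
      rw [h5] at h6
      have h7 : (m : ℝ) * dab a (j y) (dJ E j y u) w = 0 := by
        rw [← nsmul_eq_mul]; exact h6.symm
      rcases mul_eq_zero.1 h7 with h8 | h8
      · exact absurd (Nat.cast_eq_zero.1 h8) hm.ne'
      · exact h8
    intro w
    have h1 := key (w - bE a (j y) w • rE R (j y)) (by
      rw [map_sub, map_smul, bE_rE c, smul_eq_mul, mul_one, sub_self])
    have h2 : dab a (j y) (dJ E j y u) (rE R (j y)) = 0 := by
      rw [dab_anti, dab_apply]
      have h3 := c.reeb.kernel (j y) (dJ E j y u)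
      exact neg_eq_zero.2 h3
    rw [map_sub, map_smul, h2, smul_zero, sub_zero] at h1
    exact h1
  exact h.inj y (hmain.trans (map_zero _).symm)

end

end Pool.Agent.H904.W3
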