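import Mathlib
import Pool.Graph.R_pool_sql_team_seeded_64922ed1.X167.W.ComStmt
import Pool.Agent.H904.W3.Cases

/-!
# Closed three-manifolds tangent to the Reeb field: the theorems
-/

open scoped Topology ContDiff Manifold
open Set Pool.Agent.Helper186 Pool.Agent.H826R2 Pool.Agent.H826R2.WStmt Pool.Agent.W671.RStmt
  Pool.Agent.X167.W

noncomputable section

namespace Pool.Agent.H904.W3

set_option linter.unusedSectionVars false

universe u w

variable {E : Type u} [NormedAddCommGroup E] [NormedSpace ℝ E] [FiniteDimensional ℝ E]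
  {M : Type*} [TopologicalSpace M] [ChartedSpace E M] [IsManifold 𝓘(ℝ, E) ∞ M]
  {N : Type w} [TopologicalSpace N] [ChartedSpace E3 N] [IsManifold 𝓘(ℝ, E3) ∞ N]

lemma IsTangent.tan {R : M → E} {j : N → M} {RN : N → E3} (h : IsTangent R j RN) :
    Tan (fun x => (R x : TangentSpace 𝓘(ℝ, E) x)) j :=
  ⟨h.smooth, h.immersion, fun y => ⟨RN y, h.tangent y⟩⟩

lemma IsTangent.RN_eq {R : M → E} {j : N → M} {RN : N → E3} (h : IsTangent R j RN) :
    h.tan.RN = RN :=
  funext fun y => h.immersion y ((h.tan.RN_spec y).trans (h.tangent y).symm)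

/-- periodic orbits of `N` are periodic orbits of `M` -/
lemma IsTangent.push {R : M → E} {j : N → M} {RN : N → E3} (h : IsTangent R j RN)
    {γ : ℝ → N} {T : ℝ} (hγ : IsPeriodicOrbit RN γ T) :
    IsPeriodicOrbit R (fun t => j (γ t)) T := by
  refine ⟨hγ.pos, ?_, fun t => ?_⟩
  · apply h.tan.integral_push
    rw [h.RN_eq]
    exact hγ.integral
  · show j (γ (t + T)) = j (γ t)
    rw [hγ.period]

lemma strict_of {α : M → Cov E} {g : M → M} (hgα : WStmt.pull g α = α) :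
    Strict (toForm α) g := by
  intro y u
  have h := congrFun hgα y
  exact congrArg (fun a : Cov E => ev a (u : E)) h

variable [T2Space M] [CompactSpace M] [T2Space N] [CompactSpace N]

/-- first integrals -/
theorem stable_of_integrals {α : M → Cov E} (hα : WStmt.IsContact α) {R : M → E}
    (hR : WStmt.IsReeb α R) {j : N → M} {RN : N → E3} (hj : IsTangent R j RN)
    {μ₀ : N → ℝ} (hμ : IsVolumeForm μ₀) {k : ℕ} (hk : Module.finrank ℝ E = 3 + k)
    {f : Fin k → M → ℝ} (hf : ∀ i, ContMDiff 𝓘(ℝ, E) 𝓘(ℝ, ℝ) ∞ (f i))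
    (hfR : ∀ i x, D (E := E) (E' := ℝ) (f i) x (R x) = 0)
    (hN : ∀ i y u, D (E := E) (E' := ℝ) (f i) (j y) (D (E := E3) (E' := E) j y u) = 0)
    (hsurj : ∀ y, Function.Surjective
      fun (u : E) (i : Fin k) => D (E := E) (E' := ℝ) (f i) (j y) u) :
    ∃ (Ψ : N → ℝ → N) (μ : N → ℝ), IsStableReeb (WStmt.pull j α) RN Ψ μ := by
  have : IsManifold 𝓘(ℝ, E) 1 M := IsManifold.of_le (n := ∞) (by simp)
  have c : Wein.CD (toForm α) (fun x => (R x : TangentSpace 𝓘(ℝ, E) x)) := ⟨hα.toWein, hR.toWein⟩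
  choose Fl hF0 hF using fun x : M => Wein.complete_of_compact (Pool.Agent.W671.WU.smooth_reeb c)
    isCompact_univ (fun y hy => absurd (mem_univ y) hy) x
  have hRF := Pool.Agent.W671.WU.RF.of c hF0 hF
  obtain ⟨Ψ, hΨ⟩ := exists_flow c hRF hj.tan
  obtain ⟨μ, h1⟩ := stable_of_nor hk c hRF hj.tan hμ hΨ
    (nor_of_integrals hk hj.tan hRF hΨ hf hfR hN hsurj)
  rw [hj.RN_eq] at h1
  exact ⟨Ψ, μ, h1⟩

/-- strict contactomorphisms -/
theorem stable_of_map {α : M → Cov E} (hα : WStmt.IsContact α) {R : M → E}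
    (hR : WStmt.IsReeb α R) {j : N → M} {RN : N → E3} (hj : IsTangent R j RN) [Nonempty N]
    {μ₀ : N → ℝ} (hμ : IsVolumeForm μ₀)
    {g : M → M} (hg : ContMDiff 𝓘(ℝ, E) 𝓘(ℝ, E) ∞ g) (hgα : WStmt.pull g α = α)
    (hgj : ∀ y, g (j y) = j y)
    (hclean : ∀ y (u : E), D (E := E) (E' := E) g (j y) u = u →
      ∃ w, D (E := E3) (E' := E) j y w = u) :
    ∃ (Ψ : N → ℝ → N) (μ : N → ℝ), IsStableReeb (WStmt.pull j α) RN Ψ μ := by
  have : IsManifold 𝓘(ℝ, E) 1 M := IsManifold.of_le (n := ∞) (by simp)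
  have c : Wein.CD (toForm α) (fun x => (R x : TangentSpace 𝓘(ℝ, E) x)) := ⟨hα.toWein, hR.toWein⟩
  choose Fl hF0 hF using fun x : M => Wein.complete_of_compact (Pool.Agent.W671.WU.smooth_reeb c)
    isCompact_univ (fun y hy => absurd (mem_univ y) hy) x
  have hRF := Pool.Agent.W671.WU.RF.of c hF0 hF
  obtain ⟨Ψ, hΨ⟩ := exists_flow c hRF hj.tan
  obtain ⟨y₀⟩ := ‹Nonempty N›
  have hdim : 3 ≤ Module.finrank ℝ E := by
    have h1 := LinearMap.finrank_le_finrank_of_injective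
      (f := ((D (E := E3) (E' := E) j y₀ : E3 →L[ℝ] E) : E3 →ₗ[ℝ] E)) (hj.immersion y₀)
    simpa using h1
  obtain ⟨μ, h1⟩ := stable_of_nor (k := Module.finrank ℝ E - 3) (by omega) c hRF hj.tan hμ hΨ
    (nor_of_map c hj.tan hRF hΨ hg (strict_of hgα) hgj hclean)
  rw [hj.RN_eq] at h1
  exact ⟨Ψ, μ, h1⟩

/-- strict contactomorphisms of finite order -/
theorem contact_of_finite {α : M → Cov E} (hα : WStmt.IsContact α) {R : M → E}
    (hR : WStmt.IsReeb α R) {j : N → M} {RN : N → E3} (hj : IsTangent R j RN)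
    {g : M → M} (hg : ContMDiff 𝓘(ℝ, E) 𝓘(ℝ, E) ∞ g) (hgα : WStmt.pull g α = α)
    (hgj : ∀ y, g (j y) = j y)
    (hclean : ∀ y (u : E), D (E := E) (E' := E) g (j y) u = u →
      ∃ w, D (E := E3) (E' := E) j y w = u) {m : ℕ} (hm : 0 < m) (hgm : g^[m] = id) :
    WStmt.IsContact (WStmt.pull (E := E3) (E' := E) j α) ∧
      WStmt.IsReeb (WStmt.pull (E := E3) (E' := E) j α) RN := by
  have c : Wein.CD (toForm α) (fun x => (R x : TangentSpace 𝓘(ℝ, E) x)) := ⟨hα.toWein, hR.toWein⟩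
  obtain ⟨i1, i2, i3⟩ := induced_form c hj.tan
  have hr : WStmt.IsReeb (WStmt.pull (E := E3) (E' := E) j α) RN := by
    rw [← hj.RN_eq]
    exact ⟨i2, i3⟩
  refine ⟨⟨i1, fun y => ⟨RN y, ?_⟩, fun y u hu hv => ?_⟩, hr⟩
  · rw [hr.unit]
    exact one_ne_zero
  · exact contact_of_finite_order c hj.tan hg (strict_of hgα) hgj hclean hm hgm y u hu hv

end Pool.Agent.H904.W3
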